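import Mathlib
import Pool.Agent.V11209.BarDefs
import Pool.Agent.V11209.BarFinal

set_option autoImplicit false

/-!
For `α = 8/17` (and `β = β_α = 16/191`) the maps `φ`, `ψ` are bijections of the barrel `Q_α`, they
freely generate a group, and every non-identity element of it has finitely many fixed points.
-/

namespace Pool.Agent.Results.MP_af08fa_gt.LowerEdge

open Pool.Agent.V11209.Bar

theorem result : ∃ α : ℝ, 0 < α ∧ α < Real.sqrt (2 * Real.sqrt 3 - 3) ∧
    (∀ z ∈ Q α, sigma z ∈ Q α) ∧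
    ∃ φ ψ : Equiv.Perm (Q α), IsPhi α (beta α) φ ∧ IsPsi α φ ψ ∧
      Function.Injective (FreeGroup.lift ![φ, ψ]) ∧
      ∀ g ∈ Subgroup.closure {φ, ψ}, g ≠ 1 → {z : Q α | g z = z}.Finite :=
  ⟨al, al_range.1, al_range.2, fun _ hz => sigma_mem hz, Phi, Psi, isPhi, isPsi, lift_inj,
    fun g hg h1 => closure_fixed g hg h1⟩

end Pool.Agent.Results.MP_af08fa_gt.LowerEdge
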